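import Mathlib
import Pool.Agent.P.MP_ef40db_lc.Defs
import Pool.Agent.P.MP_ef40db_lc.OptDefs
import Pool.Agent.P.MP_ef40db_lc.OptLink

namespace Pool.Agent.Results.MP_ef40db_lc.MinCost

open Pool.Agent.P.MP_ef40db_lc

/-- A Turing machine that, in polynomial time, outputs a stable matching respecting all project
lower quotas whose cost is least among all such matchings, or correctly reports that there is no
such matching. The cost is the sum of a number for every matched pair and of a number for every
project that depends on how many students it gets. -/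
theorem result :
    ∃ (tm : Turing.FinTM2) (e₀ : tm.Γ tm.k₀ ≃ Bool) (e₁ : tm.Γ tm.k₁ ≃ Bool) (P : Polynomial ℕ),
      (∀ k, Finite (tm.Γ k)) ∧
      ∀ (I : Inst) (v : Fin I.n₁ → Fin I.n₂ → ℕ) (w : Fin I.n₂ → ℕ → ℕ), ∃ out : List Bool,
        Nonempty (Turing.TM2OutputsInTime tm ((I.costEncode v w).map e₀.symm)
          (some (out.map e₁.symm)) (P.eval (I.costEncode v w).length)) ∧
        ((∃ M, I.IsSolution M ∧ (∀ M', I.IsSolution M' → I.cost v w M ≤ I.cost v w M') ∧
            out = true :: I.table M) ∨
          (out = [false] ∧ ¬ ∃ M, I.IsSolution M)) := by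
  obtain ⟨tm, e₀, e₁, P, h1, h2⟩ := pt_optAlg.exists_tm
  exact ⟨tm, e₀, e₁, P, h1, fun I v w => ⟨optAlg (I.costEncode v w), h2 _, I.optAlg_correct v w⟩⟩

end Pool.Agent.Results.MP_ef40db_lc.MinCost
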