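import Mathlib
import Pool.Agent.P.MP_ef40db_lc.Defs
import Pool.Agent.P.MP_ef40db_lc.Link

namespace Pool.Agent.Results.MP_ef40db_lc.PolyTime

open Pool.Agent.P.MP_ef40db_lc

/-- A Turing machine that, in polynomial time, outputs a stable matching respecting all project
lower quotas, or correctly reports that none exists. -/
theorem result :
    ∃ (tm : Turing.FinTM2) (e₀ : tm.Γ tm.k₀ ≃ Bool) (e₁ : tm.Γ tm.k₁ ≃ Bool) (P : Polynomial ℕ),
      (∀ k, Finite (tm.Γ k)) ∧
      ∀ I : Inst, ∃ out : List Bool,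
        Nonempty (Turing.TM2OutputsInTime tm (I.encode.map e₀.symm) (some (out.map e₁.symm))
          (P.eval I.encode.length)) ∧
        ((∃ M, I.IsSolution M ∧ out = true :: I.table M) ∨
          (out = [false] ∧ ¬ ∃ M, I.IsSolution M)) := by
  obtain ⟨tm, e₀, e₁, P, h1, h2⟩ := pt_alg.exists_tm
  exact ⟨tm, e₀, e₁, P, h1, fun I => ⟨alg I.encode, h2 _, I.alg_correct⟩⟩

end Pool.Agent.Results.MP_ef40db_lc.PolyTime
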