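import Mathlib
import Pool.Agent.P.MP_ef40db_lc.Defs
import Pool.Agent.P.MP_ef40db_lc.H2.Defs
import Pool.Agent.P.MP_ef40db_lc.H2.Swap

namespace Pool.Agent.Results.MP_ef40db_lc.Sublattice

open Pool.Agent.P.MP_ef40db_lc

/-- Giving every student the better (the worse) of her projects in two stable matchings that
respect the lower quotas yields stable matchings that respect the lower quotas, and at every
lecturer these have the project counts of the two given matchings, in one of the two orders. -/
theorem result (I : Inst) (M N : Finset (Fin I.n₁ × Fin I.n₂))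
    (hM : I.IsSolution M) (hN : I.IsSolution N) :
    I.IsSolution (I.better M N) ∧ I.IsSolution (I.worse M N) ∧
    ∀ l : Fin I.n₃,
      (∀ p, I.lec p = l →
        (I.onProj (I.better M N) p).card = (I.onProj M p).card ∧
        (I.onProj (I.worse M N) p).card = (I.onProj N p).card) ∨
      (∀ p, I.lec p = l →
        (I.onProj (I.better M N) p).card = (I.onProj N p).card ∧
        (I.onProj (I.worse M N) p).card = (I.onProj M p).card) :=
  ⟨(Inst.solution_closed hM hN).1, (Inst.solution_closed hM hN).2,
    Inst.counts ⟨hM.1, hM.2.1⟩ ⟨hN.1, hN.2.1⟩⟩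

end Pool.Agent.Results.MP_ef40db_lc.Sublattice
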